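import Pool.Agent.H90.EH.Targets

/-! Module HTS (MP_e3a811_co): heights in three levels. -/

set_option autoImplicit false

namespace Pool.Agent.H91.EH

open Finset Pool.Agent.H90.EH
open scoped Classical

theorem pf_HTS (h1 : T_GW0) (h2 : T_LFT) (h3 : T_EXT) (h4 : T_COE) : T_HTS := by
  intro V _ _ A AF A₁ hF hA
  obtain ⟨w₀, hw₀⟩ := h1 V A
  refine ⟨w₀, ?_, ?_⟩
  · intro BF hBF a ha haB
    obtain ⟨B, hBB, hB⟩ := h3 V A BF ((hBF.1.trans hF).trans hA) hBF.2.1
    have haSp : a ∈ Sp BF := hBF.2.2 a ha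
    obtain ⟨c1, c2⟩ := h4 V BF B a hBB hB.2.1 haSp
    have haB' : a ∉ B := by
      intro h
      have e1 := c2 a h haB
      have e2 := co_self hB.2.1 h h
      rw [if_pos rfl] at e2
      rw [e1] at e2
      exact zero_ne_one e2
    have key := hw₀ B hB a (hA (hF ha)) haB'
    have hs : ∑ b ∈ BF, co BF a b * w₀ b = ∑ b ∈ B, co B a b * w₀ b := by
      rw [← Finset.sum_subset hBB (f := fun b => co B a b * w₀ b)]
      · exact Finset.sum_congr rfl fun b hb => by rw [c1 b hb]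
      · intro b hb hb'
        rw [c2 b hb hb', zero_mul]
    rw [hs]
    exact key
  · intro C
    obtain ⟨M₀, hM₀⟩ := h2 V A AF w₀ (hF.trans hA) hw₀
    obtain ⟨g1, -⟩ := hM₀ (|M₀| + ∑ a ∈ A₁, |C - w₀ a|) (by
      have := le_abs_self M₀
      have h0 : (0 : ℚ) ≤ ∑ a ∈ A₁, |C - w₀ a| := Finset.sum_nonneg fun a _ => abs_nonneg _
      linarith)
    obtain ⟨M₁, hM₁⟩ := h2 V A A₁ _ hA g1
    obtain ⟨g2, g3⟩ := hM₁ M₁ le_rfl
    refine ⟨_, g2, ?_, ?_, ?_⟩
    · intro a ha
      simp only [if_pos (hF ha), if_pos ha]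
    · intro a ha ha'
      simp only [if_pos ha, if_neg ha']
      have h0 : |C - w₀ a| ≤ ∑ a ∈ A₁, |C - w₀ a| :=
        Finset.single_le_sum (f := fun a => |C - w₀ a|) (fun a _ => abs_nonneg _) ha
      have h5 := le_abs_self (C - w₀ a)
      have h6 := abs_nonneg M₀
      linarith
    · intro B hB hI a ha ha' hs
      have := g3 B hB hI a ha ha' hs
      simp only [if_neg ha']
      refine lt_of_eq_of_lt ?_ this
      refine Finset.sum_congr rfl fun b hb => ?_
      simp only [if_pos (hB hb)]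

end Pool.Agent.H91.EH
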